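import Pool.Agent.helper23.CU.Spec

/-!
# Project cu, module MON: the heat bath preserves increasing functions
-/

open Finset Filter Topology

namespace CU

theorem MON_bool (a b c e : Bool) :
    ((if (a ⊓ b) ≠ (c ⊓ e) then 1 else 0) + (if (a ⊔ b) ≠ (c ⊔ e) then 1 else 0) : ℕ) ≤
      (if a ≠ c then 1 else 0) + (if b ≠ e then 1 else 0) := by
  revert a b c e
  decide

theorem MON_sub {d n : ℕ} [NeZero n] (a b : Conf d n) :
    (brk (a ⊓ b)).card + (brk (a ⊔ b)).card ≤ (brk a).card + (brk b).card := by
  unfold brk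
  simp only [Finset.card_filter]
  rw [← Finset.sum_add_distrib, ← Finset.sum_add_distrib]
  apply Finset.sum_le_sum
  intro e _
  exact MON_bool _ _ _ _

theorem MON_W {d n : ℕ} [NeZero n] {β : ℝ} (hβ : 0 ≤ β) (a b : Conf d n) :
    W β a * W β b ≤ W β (a ⊓ b) * W β (a ⊔ b) := by
  unfold W
  rw [← Real.exp_add, ← Real.exp_add]
  apply Real.exp_le_exp.2
  have h : (((brk (a ⊓ b)).card : ℝ)) + ((brk (a ⊔ b)).card : ℝ) ≤
      ((brk a).card : ℝ) + ((brk b).card : ℝ) := by
    exact_mod_cast MON_sub a b
  nlinarith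

theorem MON_Wpos {d n : ℕ} [NeZero n] (β : ℝ) (a : Conf d n) : 0 < W β a := Real.exp_pos _

theorem MON_upd_mono {d n : ℕ} {σ η : Conf d n} (h : σ ≤ η) (x : Site d n) (b : Bool) :
    Function.update σ x b ≤ Function.update η x b := by
  intro y
  by_cases hy : y = x
  · subst hy
    simp
  · rw [Function.update_of_ne hy, Function.update_of_ne hy]
    exact h y

theorem MON_upd_le {d n : ℕ} (σ : Conf d n) (x : Site d n) :
    Function.update σ x false ≤ Function.update σ x true := by
  intro y
  by_cases hy : y = x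
  · subst hy
    simp
  · rw [Function.update_of_ne hy, Function.update_of_ne hy]

theorem MON_inf {d n : ℕ} {σ η : Conf d n} (h : σ ≤ η) (x : Site d n) :
    Function.update η x false ⊓ Function.update σ x true = Function.update σ x false := by
  funext y
  rw [Pi.inf_apply]
  by_cases hy : y = x
  · subst hy
    simp
  · rw [Function.update_of_ne hy, Function.update_of_ne hy, Function.update_of_ne hy]
    exact inf_eq_right.2 (h y)

theorem MON_sup {d n : ℕ} {σ η : Conf d n} (h : σ ≤ η) (x : Site d n) :
    Function.update η x false ⊔ Function.update σ x true = Function.update η x true := by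
  funext y
  rw [Pi.sup_apply]
  by_cases hy : y = x
  · subst hy
    simp
  · rw [Function.update_of_ne hy, Function.update_of_ne hy, Function.update_of_ne hy]
    exact sup_eq_left.2 (h y)

theorem MON_real (A B A' B' u v u' v' : ℝ) (hA : 0 < A) (hB : 0 < B) (hA' : 0 < A') (hB' : 0 < B')
    (hc : B' * A ≤ B * A') (hu : u ≤ u') (hv : v ≤ v') (hvu : v' ≤ u') :
    (A * u + B * v) / (A + B) ≤ (A' * u' + B' * v') / (A' + B') := by
  have h1 : (A * u + B * v) / (A + B) ≤ (A * u' + B * v') / (A + B) := by
    gcongr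
  refine h1.trans ?_
  rw [div_le_div_iff₀ (by positivity) (by positivity)]
  have h2 : 0 ≤ (B * A' - B' * A) * (u' - v') := mul_nonneg (by linarith) (by linarith)
  nlinarith

theorem MON_K {d n : ℕ} [NeZero n] {β : ℝ} (hβ : 0 ≤ β) (f : Conf d n → ℝ) (hf : Monotone f)
    (x : Site d n) : Monotone (Kx β x f) := by
  intro σ η h
  unfold Kx
  apply MON_real _ _ _ _ _ _ _ _ (MON_Wpos β _) (MON_Wpos β _) (MON_Wpos β _) (MON_Wpos β _)
  · have h1 := MON_W hβ (Function.update η x false) (Function.update σ x true)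
    rw [MON_inf h, MON_sup h] at h1
    exact h1
  · exact hf (MON_upd_mono h x true)
  · exact hf (MON_upd_mono h x false)
  · exact hf (MON_upd_le η x)

theorem MON_P {d n : ℕ} [NeZero n] {β : ℝ} (hβ : 0 ≤ β) (f : Conf d n → ℝ) (hf : Monotone f) :
    Monotone (Pf β f) := by
  intro σ η h
  unfold Pf
  apply div_le_div_of_nonneg_right _ (Nat.cast_nonneg _)
  apply Finset.sum_le_sum
  intro x _
  exact MON_K hβ f hf x h

theorem MON : MON_stmt := by
  intro d n _ hn β hβ f hf
  refine ⟨fun x => MON_K hβ f hf x, fun t => ?_⟩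
  induction t with
  | zero => exact hf
  | succ t ih =>
    rw [Function.iterate_succ']
    exact MON_P hβ _ ih

end CU
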