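import Pool.Agent.helper23.CU.Spec

/-!
# Project cu, module LA: lower bound
-/

open Finset Filter Topology

namespace CU

theorem LA_Ex_sum {d n : ℕ} [NeZero n] (β : ℝ) (f : Site d n → Conf d n → ℝ) :
    Ex β (fun σ => ∑ v, f v σ) = ∑ v, Ex β (f v) := by
  unfold Ex
  rw [← Finset.sum_div]
  congr 1
  rw [Finset.sum_comm]
  apply Finset.sum_congr rfl
  intro σ _
  rw [Finset.mul_sum]

theorem LA_sg_abs (b : Bool) : |sg b| ≤ 1 := by
  cases b <;> simp [sg]

theorem LA_Mg {d n : ℕ} [NeZero n] (σ : Conf d n) : |Mg σ| ≤ (Fintype.card (Site d n) : ℝ) := by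
  unfold Mg
  refine (Finset.abs_sum_le_sum_abs _ _).trans ?_
  refine (Finset.sum_le_sum fun x _ => LA_sg_abs (σ x)).trans ?_
  rw [Finset.sum_const, nsmul_eq_mul, mul_one]
  rfl

theorem LA (hREV : REV_stmt) (hLIN : LIN_stmt) (hBT : BT_stmt) : LA_stmt := by
  classical
  intro d n s _ β A hA1 hA2
  set N : ℝ := (Fintype.card (Site d n) : ℝ) with hN
  have hN0 : 0 ≤ N := Nat.cast_nonneg _
  set a : Conf d n → ℝ := A.indicator (fun _ => 1) with ha
  set b : Conf d n → ℝ := (Pf β)^[s] a with hb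
  have ha01 : ∀ σ, a σ = 0 ∨ a σ = 1 := by
    intro σ
    rw [ha]
    by_cases hσ : σ ∈ A
    · right
      rw [Set.indicator_of_mem hσ]
    · left
      rw [Set.indicator_of_notMem hσ]
  have ha0 : ∀ σ, 0 ≤ a σ := fun σ => by rcases ha01 σ with h | h <;> rw [h]; exact zero_le_one
  have ha1 : ∀ σ, a σ ≤ 1 := fun σ => by rcases ha01 σ with h | h <;> rw [h]; exact zero_le_one
  have hconst : ∀ c : ℝ, (Pf β)^[s] (fun _ : Conf d n => c) = fun _ => c :=
    (hREV d n β a a s).2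
  have hb0 : ∀ σ, 0 ≤ b σ := by
    intro σ
    have h1 := (hLIN d n β (fun _ : Conf d n => (0 : ℝ)) a 1 1 s).2.1 ha0 σ
    rw [hconst 0] at h1
    exact h1
  have hb1 : ∀ σ, b σ ≤ 1 := by
    intro σ
    have h1 := (hLIN d n β a (fun _ : Conf d n => (1 : ℝ)) 1 1 s).2.1 ha1 σ
    rw [hconst 1] at h1
    exact h1
  have hEb : Ex β b = Ex β a := by
    have h1 := (hREV d n β (fun _ : Conf d n => (1 : ℝ)) a s).1
    rw [hconst 1] at h1
    simp only [one_mul] at h1
    exact h1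
  have hrev := (hREV d n β a Mg s).1
  -- the complement
  have hbc : (Pf β)^[s] (Aᶜ.indicator fun _ => (1 : ℝ)) = fun σ : Conf d n => 1 - b σ := by
    have h1 : (Aᶜ.indicator fun _ => (1 : ℝ)) = fun σ : Conf d n => 1 * 1 + (-1) * a σ := by
      funext σ
      rw [ha]
      by_cases hσ : σ ∈ A
      · rw [Set.indicator_of_mem hσ, Set.indicator_of_notMem (by simpa using hσ)]
        norm_num
      · rw [Set.indicator_of_notMem hσ, Set.indicator_of_mem (by simpa using hσ)]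
        norm_num
    rw [h1]
    have h2 := (hLIN d n β (fun _ : Conf d n => (1 : ℝ)) a 1 (-1) s).1
    rw [h2, hconst 1]
    funext σ
    show 1 * 1 + -1 * b σ = 1 - b σ
    ring
  have hbt := hBT d n β A hA1 hA2 s
  rw [hbc] at hbt
  have hbt' : Ex β (fun σ => a σ * (1 - b σ)) ≤ s * (1 - 2 * PrE β A) := hbt
  have hab : Ex β (fun σ => a σ * (1 - b σ)) = Ex β a - Ex β (fun σ => a σ * b σ) := by
    have h1 := (hLIN d n β a (fun σ => a σ * b σ) 1 (-1) s).2.2.1
    have h2 : (fun σ => a σ * (1 - b σ)) = fun σ => 1 * a σ + (-1) * (a σ * b σ) := by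
      funext σ
      ring
    rw [h2, h1]
    ring
  -- pointwise inequality
  have hpt : ∀ σ, 1 * (a σ * Mg σ) + (-N) * (1 * (1 * a σ + 1 * b σ) + (-2) * (a σ * b σ)) ≤
      b σ * Mg σ := by
    intro σ
    have h1 := abs_le.1 (LA_Mg σ)
    have h2 := hb0 σ
    have h3 := hb1 σ
    rcases ha01 σ with h | h
    · rw [h]
      nlinarith [h1.1]
    · rw [h]
      nlinarith [h1.2]
  have hle := (hLIN d n β (fun σ => 1 * (a σ * Mg σ) + (-N) *
    (1 * (1 * a σ + 1 * b σ) + (-2) * (a σ * b σ))) (fun σ => b σ * Mg σ) 1 1 s).2.2.2.1 hpt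
  have e1 := (hLIN d n β (fun σ => a σ * Mg σ)
    (fun σ => 1 * (1 * a σ + 1 * b σ) + (-2) * (a σ * b σ)) 1 (-N) s).2.2.1
  have e2 := (hLIN d n β (fun σ => 1 * a σ + 1 * b σ) (fun σ => a σ * b σ) 1 (-2) s).2.2.1
  have e3 := (hLIN d n β a b 1 1 s).2.2.1
  rw [e1, e2, e3, hEb] at hle
  have hsum : Ex β (fun σ => a σ * Mg σ) = ∑ v : Site d n, Ex β (fun σ => a σ * sg (σ v)) := by
    rw [← LA_Ex_sum β (fun v σ => a σ * sg (σ v))]
    congr 1
    funext σ
    unfold Mg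
    rw [Finset.mul_sum]
  rw [hsum] at hle
  have hgs : Ex β (fun σ => a σ * gs β s σ) = Ex β (fun σ => b σ * Mg σ) := hrev
  rw [hgs, ← Finset.mul_sum]
  rw [hab] at hbt'
  have h5 : N * (Ex β a - Ex β (fun σ => a σ * b σ)) ≤ N * (s * (1 - 2 * PrE β A)) :=
    mul_le_mul_of_nonneg_left hbt' hN0
  nlinarith

end CU
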