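import Pool.Agent.helper23.CU.Spec

/-!
# Project cu, module LO: locality of the phase
-/

open Finset Filter Topology

namespace CU

/-- cyclic absolute value -/
def LO_dk {n : ℕ} (a : ZMod n) : ℕ := a.valMinAbs.natAbs

theorem LO_dk_neg {n : ℕ} [NeZero n] (a : ZMod n) : LO_dk (-a) = LO_dk a :=
  ZMod.natAbs_valMinAbs_neg a

theorem LO_dk_add {n : ℕ} [NeZero n] (a b : ZMod n) : LO_dk (a + b) ≤ LO_dk a + LO_dk b :=
  (ZMod.natAbs_valMinAbs_add_le a b).trans (Int.natAbs_add_le _ _)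

theorem LO_dk_nat {n : ℕ} [NeZero n] (a : ℕ) (h : a ≤ n / 2) : LO_dk ((a : ℕ) : ZMod n) = a := by
  unfold LO_dk
  rw [ZMod.valMinAbs_natCast_of_le_half h]
  simp

theorem LO_dk_ev {d n : ℕ} [NeZero n] (hn : 2 ≤ n) (i k : Fin d) :
    LO_dk ((ev i : Site d n) k) ≤ 1 := by
  unfold ev
  by_cases h : k = i
  · subst h
    rw [Pi.single_eq_same]
    have h1 := LO_dk_nat (n := n) 1 (by omega)
    rw [Nat.cast_one] at h1
    exact h1.le
  · rw [Pi.single_eq_of_ne h]
    unfold LO_dk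
    simp

theorem LO_near_ev {d n : ℕ} [NeZero n] (hn : 2 ≤ n) {R : ℕ} {x z : Site d n} (i : Fin d)
    (h : Near R x z) : Near (R + 1) (x + ev i) z := by
  intro k
  have h1 := h k
  have h2 := LO_dk_ev (n := n) hn i k
  have h3 : z k - (x + ev i : Site d n) k = (z k - x k) + -(ev i : Site d n) k := by
    rw [Pi.add_apply]
    ring
  rw [h3]
  have h4 := LO_dk_add (z k - x k) (-(ev i : Site d n) k)
  rw [LO_dk_neg] at h4
  unfold LO_dk at h4 h2
  omega

theorem LO_near_trans {d n : ℕ} [NeZero n] {R S : ℕ} {x y z : Site d n} (h : Near R x y)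
    (h' : Near S x z) : Near (R + S) y z := by
  intro k
  have h1 := h k
  have h2 := h' k
  have h3 : z k - y k = (z k - x k) + -(y k - x k) := by ring
  rw [h3]
  have h4 := LO_dk_add (z k - x k) (-(y k - x k))
  rw [LO_dk_neg] at h4
  unfold LO_dk at h4
  omega

/-- the antipode -/
def LO_z {d n : ℕ} (v : Site d n) : Site d n := fun k => v k + ((n / 2 : ℕ) : ZMod n)

theorem LO_out {d n L R : ℕ} [NeZero n] (hd : 2 ≤ d) (h : L + R < n / 2) (v w : Site d n)
    (hw : Near R w (LO_z v)) : w ∉ Box L v := by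
  intro hb
  have hb' : Near L v w := (Finset.mem_filter.1 hb).2
  have k : Fin d := ⟨0, by omega⟩
  have h1 := hb' k
  have h2 := hw k
  have h3 : LO_z v k - v k = ((n / 2 : ℕ) : ZMod n) := by
    unfold LO_z
    ring
  have h4 : LO_z v k - v k = (LO_z v k - w k) + (w k - v k) := by ring
  have h5 := LO_dk_nat (n := n) (n / 2) le_rfl
  rw [← h3, h4] at h5
  have h6 := LO_dk_add (LO_z v k - w k) (w k - v k)
  unfold LO_dk at h5 h6
  omega

theorem LO_brk {d n L R : ℕ} [NeZero n] (hd : 2 ≤ d) (h : L + (R + 1) < n / 2) (v : Site d n)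
    (σ σ' : Conf d n) (hσ : ∀ x, x ∉ Box L v → σ x = σ' x) (e : Edge d n)
    (he : Near R e.1 (LO_z v)) (hb : e ∈ brk σ) : e ∈ brk σ' := by
  unfold brk at hb ⊢
  rw [Finset.mem_filter] at hb ⊢
  refine ⟨Finset.mem_univ _, ?_⟩
  rw [← hσ e.1 (LO_out hd (by omega) v _ he), ← hσ (e.1 + ev e.2) (LO_out hd h v _
    (LO_near_ev (by omega) e.2 he))]
  exact hb.2

theorem LO_path {d n : ℕ} [NeZero n] (σ σ' : Conf d n) (e : Edge d n)
    (h : ∀ e', (Gr σ).Reachable e e' → e' ∈ brk σ → e' ∈ brk σ') (e' : Edge d n)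
    (he : (Gr σ).Reachable e e') : (Gr σ').Reachable e e' := by
  rw [SimpleGraph.reachable_iff_reflTransGen] at he ⊢
  induction he with
  | refl => exact Relation.ReflTransGen.refl
  | tail hab hbc ih =>
    refine ih.tail ?_
    have hb := (SimpleGraph.reachable_iff_reflTransGen _ _).2 hab
    have hc := (SimpleGraph.reachable_iff_reflTransGen _ _).2 (hab.tail hbc)
    exact ⟨hbc.1, h _ hb hbc.2.1, h _ hc hbc.2.2⟩

theorem LO_key {d n r L : ℕ} [NeZero n] (hd : 2 ≤ d) (hn : 2 * (L + 3 * r + 8) ≤ n)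
    (v : Site d n) (σ σ' : Conf d n) (hg : Good r σ')
    (hσ : ∀ x, x ∉ Box L v → σ x = σ' x) (K : Finset (Edge d n)) (hK : K ∈ clusters σ)
    (hz : ∀ e ∈ K, Near (r + 1) e.1 (LO_z v)) : K ∈ clusters σ' := by
  classical
  unfold clusters at hK ⊢
  rw [Finset.mem_image] at hK ⊢
  obtain ⟨e, he, rfl⟩ := hK
  have hee : e ∈ clus σ e := by
    unfold clus
    rw [Finset.mem_filter]
    exact ⟨he, SimpleGraph.Reachable.refl e⟩
  have hez := hz e hee
  have he' : e ∈ brk σ' := LO_brk hd (by omega) v σ σ' hσ e hez he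
  refine ⟨e, he', ?_⟩
  have h1 : ∀ e', (Gr σ).Reachable e e' → e' ∈ brk σ → e' ∈ brk σ' := by
    intro e' hr hb
    refine LO_brk (R := r + 1) hd (by omega) v σ σ' hσ e' (hz e' ?_) hb
    unfold clus
    rw [Finset.mem_filter]
    exact ⟨hb, hr⟩
  have h2 : ∀ e', (Gr σ').Reachable e e' → e' ∈ brk σ' → e' ∈ brk σ := by
    intro e' hr hb
    have h3 : Near r e.1 e'.1 := hg e he' e' hr
    exact LO_brk (R := r + (r + 1)) hd (by omega) v σ' σ (fun x hx => (hσ x hx).symm) e'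
      (LO_near_trans h3 hez) hb
  ext e'
  unfold clus
  rw [Finset.mem_filter, Finset.mem_filter]
  constructor
  · rintro ⟨hb, hr⟩
    exact ⟨h2 e' hr hb, LO_path σ' σ e h2 e' hr⟩
  · rintro ⟨hb, hr⟩
    exact ⟨h1 e' hr hb, LO_path σ σ' e h1 e' hr⟩

theorem LO (hDEC : DEC_stmt) : LO_stmt := by
  classical
  intro d n r L _ hd hn v σ σ' hg hg' hσ
  obtain ⟨hp, hx⟩ := hDEC d n r hd (by omega) σ hg
  obtain ⟨hp', hx'⟩ := hDEC d n r hd (by omega) σ' hg'
  have hzn : Near 0 (LO_z v) (LO_z v) := by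
    intro k
    rw [sub_self]
    simp
  have hz : LO_z v ∉ Box L v := LO_out (R := 0) hd (by omega) v _ hzn
  have h1 := hx (LO_z v)
  have h2 := hx' (LO_z v)
  have hnear : ∀ (K : Finset (Edge d n)), PotS r K (pot r K) → pot r K (LO_z v) ≠ 0 →
      ∀ e ∈ K, Near (r + 1) e.1 (LO_z v) := by
    intro K hK hne e he
    by_contra hc
    exact hne (hK.2 e he _ hc)
  have h3 : ∑ K ∈ clusters σ, pot r K (LO_z v) = ∑ K ∈ clusters σ', pot r K (LO_z v) := by
    rw [← Finset.sum_filter_ne_zero, ← Finset.sum_filter_ne_zero (s := clusters σ')]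
    apply Finset.sum_congr _ (fun _ _ => rfl)
    ext K
    rw [Finset.mem_filter, Finset.mem_filter]
    constructor
    · rintro ⟨hK, hne⟩
      exact ⟨LO_key hd hn v σ σ' hg' hσ K hK (hnear K (hp K hK) hne), hne⟩
    · rintro ⟨hK, hne⟩
      exact ⟨LO_key hd hn v σ' σ hg (fun x hx => (hσ x hx).symm) K hK (hnear K (hp' K hK) hne),
        hne⟩
  rw [hσ _ hz, h3] at h1
  exact add_right_cancel (h1.symm.trans h2)

end CU
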