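import Pool.Agent.helper23.CU.Spec

/-!
# Project cu, module NC: two times of the same order, distance bounded away from one and from zero
-/

open Finset Filter Topology

namespace CU

theorem NC (hERG : ERG_stmt) (hGA : GA_stmt) (hPM : PM_stmt) (hP8 : P8_stmt) (hSU : SU_stmt)
    (hUP : UP_stmt) (hBR : BR_stmt) (hLIN : LIN_stmt) : NC_stmt := by
  classical
  intro d n _ hn β hβ A s hyp
  have hs : 2 ≤ s := hyp.1
  have hga := (hGA d n hn β hβ A s hyp).1
  have hlim := hERG d n β hβ ((Gm (d := d) (n := n) β s).indicator fun _ => 1) plus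
  have hlim' : Tendsto (fun t => pt (d := d) (n := n) β s t) atTop
      (𝓝 (PrE β (Gm (d := d) (n := n) β s))) := hlim
  have hex : ∃ t, 1 / 4 ≤ pt (d := d) (n := n) β s t := by
    have h1 : ∀ᶠ t in atTop, (1 / 4 : ℝ) < pt (d := d) (n := n) β s t :=
      hlim'.eventually_const_lt (by linarith)
    obtain ⟨t, ht⟩ := h1.exists
    exact ⟨t, ht.le⟩
  set R := Nat.find hex with hR
  have hR1 : 1 / 4 ≤ pt (d := d) (n := n) β s R := Nat.find_spec hex
  have hR2 : ∀ t, t < R → pt (d := d) (n := n) β s t < 1 / 4 := fun t ht =>
    not_le.1 (Nat.find_min hex ht)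
  have h8 := hP8 d n hn β hβ A s hyp
  have hR8 : 8 * s < R := by
    by_contra hc
    have h1 := (hPM d n hn β hβ s R (8 * s) (by omega)).2.1
    linarith
  refine ⟨(R + 1) / 2 + s, R - 1, by omega, by omega, ?_, ?_⟩
  · have h1 := hSU d n hn β hβ A s hyp ((R + 1) / 2) (by omega)
    have h2 := (hPM d n hn β hβ s R (2 * ((R + 1) / 2)) (by omega)).2.1
    have h3 := hUP d n hn β hβ s ((R + 1) / 2)
    linarith
  · have h1 := hR2 (R - 1) (by omega)
    set g : Conf d n → ℝ := (Gm (d := d) (n := n) β s).indicator fun _ => 1 with hg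
    have hg01 : ∀ η, 0 ≤ g η ∧ g η ≤ 1 := by
      intro η
      rw [hg]
      by_cases hη : η ∈ Gm (d := d) (n := n) β s
      · rw [Set.indicator_of_mem hη]
        exact ⟨zero_le_one, le_rfl⟩
      · rw [Set.indicator_of_notMem hη]
        exact ⟨le_rfl, zero_le_one⟩
    have h2 := (hBR d n hn β (R - 1)).2 (fun η => 1 * 1 + (-1) * g η)
      (fun η => ⟨by linarith [(hg01 η).2], by linarith [(hg01 η).1]⟩) plus
    obtain ⟨l1, -, l3, -, -⟩ := hLIN d n β (fun _ : Conf d n => (1 : ℝ)) g 1 (-1) (R - 1)
    rw [l1, l3] at h2
    have h3 : (Pf β)^[R - 1] g plus = pt (d := d) (n := n) β s (R - 1) := rfl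
    have h4 : Ex β g = PrE β (Gm (d := d) (n := n) β s) := rfl
    have h5 := (hLIN d n β (fun _ : Conf d n => (1 : ℝ)) g 1 (-1) (R - 1)).2.2.2.2
    have h6 : (Pf β)^[R - 1] (fun _ : Conf d n => (1 : ℝ)) = fun _ => 1 := by
      have h7 : ∀ t : ℕ, (Pf β)^[t] (fun _ : Conf d n => (1 : ℝ)) = fun _ => 1 := by
        intro t
        induction t with
        | zero => rfl
        | succ t ih =>
          rw [Function.iterate_succ_apply', ih]
          funext σ
          unfold Pf Kx
          have h8 : ∀ x : Site d n, (W β (Function.update σ x true) * 1 +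
              W β (Function.update σ x false) * 1) / (W β (Function.update σ x true) +
              W β (Function.update σ x false)) = 1 := by
            intro x
            rw [mul_one, mul_one]
            apply div_self
            have h9 : 0 < W β (Function.update σ x true) := Real.exp_pos _
            have h10 : 0 < W β (Function.update σ x false) := Real.exp_pos _
            positivity
          rw [Finset.sum_congr rfl fun x _ => h8 x, Finset.sum_const, nsmul_eq_mul, mul_one]
          apply div_self
          have h11 : 0 < Fintype.card (Site d n) := Fintype.card_pos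
          positivity
      exact h7 _
    beta_reduce at h2
    rw [h5, h3, h4, h6] at h2
    linarith

end CU
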