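import Pool.Agent.helper23.CU.Spec

/-!
# Project cu, module P8: `p(8s) < 1/4`
-/

open Finset Filter Topology

namespace CU

theorem P8_ind {d n : ℕ} (A : Set (Conf d n)) (σ : Conf d n) :
    0 ≤ (A.indicator (fun _ => (1 : ℝ)) σ) ∧ A.indicator (fun _ => (1 : ℝ)) σ ≤ 1 := by
  classical
  by_cases hσ : σ ∈ A
  · rw [Set.indicator_of_mem hσ]
    exact ⟨zero_le_one, le_rfl⟩
  · rw [Set.indicator_of_notMem hσ]
    exact ⟨le_rfl, zero_le_one⟩

theorem P8_01 (hREV : REV_stmt) (hLIN : LIN_stmt) {d n : ℕ} [NeZero n] (β : ℝ) (f : Conf d n → ℝ)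
    (hf : ∀ σ, 0 ≤ f σ ∧ f σ ≤ 1) (t : ℕ) (σ : Conf d n) :
    0 ≤ (Pf β)^[t] f σ ∧ (Pf β)^[t] f σ ≤ 1 := by
  have hconst : ∀ c : ℝ, (Pf β)^[t] (fun _ : Conf d n => c) = fun _ => c :=
    (hREV d n β f f t).2
  constructor
  · have h1 := (hLIN d n β (fun _ : Conf d n => (0 : ℝ)) f 1 1 t).2.1 (fun σ => (hf σ).1) σ
    rw [hconst 0] at h1
    exact h1
  · have h1 := (hLIN d n β f (fun _ : Conf d n => (1 : ℝ)) 1 1 t).2.1 (fun σ => (hf σ).2) σ
    rw [hconst 1] at h1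
    exact h1

theorem P8_inv (hREV : REV_stmt) {d n : ℕ} [NeZero n] (β : ℝ) (f : Conf d n → ℝ) (t : ℕ) :
    Ex β ((Pf β)^[t] f) = Ex β f := by
  have hconst : ∀ c : ℝ, (Pf β)^[t] (fun _ : Conf d n => c) = fun _ => c :=
    (hREV d n β f f t).2
  have h1 := (hREV d n β (fun _ : Conf d n => (1 : ℝ)) f t).1
  rw [hconst 1] at h1
  simp only [one_mul] at h1
  exact h1

theorem P8 (hL1 : L1_stmt) (hREV : REV_stmt) (hLIN : LIN_stmt) (hBT : BT_stmt) (hGA : GA_stmt) :
    P8_stmt := by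
  classical
  intro d n _ hn β hβ A s hyp
  obtain ⟨-, hGp, -, hAG, hGA'⟩ := hGA d n hn β hβ A s hyp
  obtain ⟨hs, hA1, hA2, hζ, -⟩ := hyp
  set gp : Conf d n → ℝ := (Gp (d := d) (n := n) β s).indicator (fun _ => 1) with hgp
  set gm : Conf d n → ℝ := (Gm (d := d) (n := n) β s).indicator (fun _ => 1) with hgm
  set a : Conf d n → ℝ := A.indicator (fun _ => 1) with ha
  set ac : Conf d n → ℝ := Aᶜ.indicator (fun _ => 1) with hac
  set pa : Conf d n → ℝ := (Gp (d := d) (n := n) β s \ A).indicator (fun _ => 1) with hpa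
  set am : Conf d n → ℝ := (A ∩ Gm (d := d) (n := n) β s).indicator (fun _ => 1) with ham
  set F : Conf d n → ℝ := (Pf β)^[8 * s] gm with hF
  have hp : pt (d := d) (n := n) β s (8 * s) = F plus := rfl
  have hF01 := P8_01 hREV hLIN β gm (fun σ => P8_ind _ σ) (8 * s)
  -- comparison on `G^+`
  have h1 : ∀ σ ∈ Gp (d := d) (n := n) β s, F plus ≤ F σ + 1 / 200 := by
    intro σ hσ
    have h2 := hL1 d n hn β hβ s ((Pf β)^[7 * s] gm) (P8_01 hREV hLIN β gm (fun σ => P8_ind _ σ) _)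
      σ plus (fun x => Bool.le_true _)
    rw [← Function.iterate_add_apply, show s + 7 * s = 8 * s by ring] at h2
    have h3 : gs β s (plus : Conf d n) - 1 / 100 ≤ gs β s σ := hσ
    have h4 := (abs_le.1 h2).2
    linarith
  -- average over `G^+`
  have h2 : ∀ σ, F plus * gp σ ≤ 1 * (gp σ * F σ) + (1 / 200) * gp σ := by
    intro σ
    by_cases hσ : σ ∈ Gp (d := d) (n := n) β s
    · rw [hgp, Set.indicator_of_mem hσ]
      have := h1 σ hσ
      linarith
    · rw [hgp, Set.indicator_of_notMem hσ]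
      linarith
  have h3 := (hLIN d n β (fun σ => F plus * gp σ) (fun σ => 1 * (gp σ * F σ) + (1 / 200) * gp σ)
    1 1 0).2.2.2.1 h2
  have e1 := (hLIN d n β gp gp (F plus) 0 0).2.2.1
  have e1' : Ex β (fun σ => F plus * gp σ) = F plus * Ex β gp := by
    have : (fun σ => F plus * gp σ) = fun σ => F plus * gp σ + 0 * gp σ := by
      funext σ
      ring
    rw [this, e1]
    ring
  have e2 := (hLIN d n β (fun σ => gp σ * F σ) gp 1 (1 / 200) 0).2.2.1
  rw [e1', e2] at h3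
  -- the numerator
  have h4 : ∀ σ, gp σ * F σ ≤ 1 * pa σ + 1 * (a σ * F σ) := by
    intro σ
    have h5 := hF01 σ
    by_cases hσ : σ ∈ A
    · have h6 : a σ = 1 := by rw [ha, Set.indicator_of_mem hσ]
      have h7 := (P8_ind (Gp (d := d) (n := n) β s) σ).2
      have h8 := (P8_ind (Gp (d := d) (n := n) β s \ A) σ).1
      rw [h6]
      have h9 : gp σ * F σ ≤ 1 * F σ := mul_le_mul_of_nonneg_right h7 h5.1
      linarith
    · have h6 : a σ = 0 := by rw [ha, Set.indicator_of_notMem hσ]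
      rw [h6]
      by_cases hσ' : σ ∈ Gp (d := d) (n := n) β s
      · have h7 : pa σ = 1 := by rw [hpa, Set.indicator_of_mem (Set.mem_sdiff_of_mem hσ' hσ)]
        have h8 : gp σ = 1 := by rw [hgp, Set.indicator_of_mem hσ']
        rw [h7, h8]
        linarith [h5.2]
      · have h8 : gp σ = 0 := by rw [hgp, Set.indicator_of_notMem hσ']
        have h9 := (P8_ind (Gp (d := d) (n := n) β s \ A) σ).1
        rw [h8]
        linarith
  have h5 := (hLIN d n β (fun σ => gp σ * F σ) (fun σ => 1 * pa σ + 1 * (a σ * F σ))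
    1 1 0).2.2.2.1 h4
  rw [(hLIN d n β pa (fun σ => a σ * F σ) 1 1 0).2.2.1] at h5
  -- second part
  have h6 : ∀ σ, gm σ ≤ 1 * ac σ + 1 * am σ := by
    intro σ
    by_cases hσ : σ ∈ A
    · have h7 : ac σ = 0 := by rw [hac, Set.indicator_of_notMem (by simpa using hσ)]
      by_cases hσ' : σ ∈ Gm (d := d) (n := n) β s
      · have h8 : am σ = 1 := by rw [ham, Set.indicator_of_mem (Set.mem_inter hσ hσ')]
        have h9 := (P8_ind (Gm (d := d) (n := n) β s) σ).2
        rw [h7, h8]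
        linarith
      · have h8 : gm σ = 0 := by rw [hgm, Set.indicator_of_notMem hσ']
        have h9 := (P8_ind (A ∩ Gm (d := d) (n := n) β s) σ).1
        rw [h7, h8]
        linarith
    · have h7 : ac σ = 1 := by rw [hac, Set.indicator_of_mem (by simpa using hσ)]
      have h8 := (P8_ind (Gm (d := d) (n := n) β s) σ).2
      have h9 := (P8_ind (A ∩ Gm (d := d) (n := n) β s) σ).1
      rw [h7]
      linarith
  have h7 := (hLIN d n β gm (fun σ => 1 * ac σ + 1 * am σ) 1 1 (8 * s)).2.1 h6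
  rw [(hLIN d n β ac am 1 1 (8 * s)).1] at h7
  set C : Conf d n → ℝ := (Pf β)^[8 * s] ac with hC
  set D : Conf d n → ℝ := (Pf β)^[8 * s] am with hD
  have hD01 := P8_01 hREV hLIN β am (fun σ => P8_ind _ σ) (8 * s)
  have h8 : ∀ σ, a σ * F σ ≤ 1 * (a σ * C σ) + 1 * D σ := by
    intro σ
    have h9 : F σ ≤ 1 * C σ + 1 * D σ := h7 σ
    have h10 := P8_ind A σ
    have h11 : a σ * F σ ≤ a σ * (1 * C σ + 1 * D σ) := mul_le_mul_of_nonneg_left h9 h10.1
    have h12 : a σ * D σ ≤ 1 * D σ := mul_le_mul_of_nonneg_right h10.2 (hD01 σ).1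
    linarith
  have h9 := (hLIN d n β (fun σ => a σ * F σ) (fun σ => 1 * (a σ * C σ) + 1 * D σ)
    1 1 0).2.2.2.1 h8
  rw [(hLIN d n β (fun σ => a σ * C σ) D 1 1 0).2.2.1] at h9
  have h10 : Ex β D = Ex β am := P8_inv hREV β am (8 * s)
  have h11 := hBT d n β A hA1 hA2 (8 * s)
  have h11' : Ex β (fun σ => a σ * C σ) ≤ ((8 * s : ℕ) : ℝ) * (1 - 2 * PrE β A) := h11
  push_cast at h11'
  have h12 : Ex β am ≤ 2 / 10000 := hAG
  have h13 : Ex β pa ≤ 5 / 10000 := hGA'
  have h14 : 48 / 100 ≤ Ex β gp := hGp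
  rw [hp]
  have h15 := (hF01 plus).1
  have h16 := h15
  by_contra hc
  have hc' : 1 / 4 ≤ F plus := not_lt.1 hc
  nlinarith

end CU
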