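import Pool.Agent.helper23.CU.Spec

/-!
# Project cu, module UA: upper bound of `a_s`
-/

open Finset Filter Topology

namespace CU

theorem UA_Kx {d n : ℕ} [NeZero n] (β : ℝ) (x : Site d n) (f : Site d n → Conf d n → ℝ)
    (σ : Conf d n) : Kx β x (fun σ => ∑ v, f v σ) σ = ∑ v, Kx β x (f v) σ := by
  unfold Kx
  rw [← Finset.sum_div]
  congr 1
  rw [Finset.mul_sum, Finset.mul_sum, ← Finset.sum_add_distrib]

theorem UA_Pf {d n : ℕ} [NeZero n] (β : ℝ) (f : Site d n → Conf d n → ℝ) :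
    Pf β (fun σ => ∑ v, f v σ) = fun σ => ∑ v, Pf β (f v) σ := by
  funext σ
  unfold Pf
  rw [← Finset.sum_div]
  congr 1
  rw [Finset.sum_comm]
  apply Finset.sum_congr rfl
  intro x _
  exact UA_Kx β x f σ

theorem UA_iter {d n : ℕ} [NeZero n] (β : ℝ) (f : Site d n → Conf d n → ℝ) (s : ℕ) :
    (Pf β)^[s] (fun σ => ∑ v, f v σ) = fun σ => ∑ v, (Pf β)^[s] (f v) σ := by
  induction s with
  | zero => rfl
  | succ s ih =>
    rw [Function.iterate_succ_apply', ih, UA_Pf]
    funext σ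
    apply Finset.sum_congr rfl
    intro v _
    rw [Function.iterate_succ_apply']

theorem UA_real (q : ℝ) (hq0 : 0 ≤ q) (hq1 : q ≤ 1) (D m s : ℕ) (hD : 0 < D) (hDm : D ≤ m) :
    (1 - q ^ D) ^ (s / D) ≤ (1 - q ^ m) ^ (s / m) := by
  have h1 : q ^ m ≤ q ^ D := pow_le_pow_of_le_one hq0 hq1 hDm
  have h2 : q ^ D ≤ 1 := pow_le_one₀ hq0 hq1
  have h3 : 0 ≤ q ^ m := pow_nonneg hq0 m
  have h4 : s / m ≤ s / D := Nat.div_le_div_left hDm hD
  calc (1 - q ^ D) ^ (s / D) ≤ (1 - q ^ m) ^ (s / D) :=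
        pow_le_pow_left₀ (by linarith) (by linarith) _
    _ ≤ (1 - q ^ m) ^ (s / m) := pow_le_pow_of_le_one (by linarith) (by linarith) h4

theorem UA_sg_abs (b : Bool) : |sg b| ≤ 1 := by
  cases b <;> simp [sg]

theorem UA_sg_mono {a b : Bool} (h : a ≤ b) : sg a ≤ sg b := by
  cases a <;> cases b
  · exact le_rfl
  · simp only [sg]
    norm_num
  · exact absurd h (by decide)
  · exact le_rfl

theorem UA (h1 : BX1_stmt) (h4 : BX4_stmt) : UA_stmt := by
  intro d n L m s _ hn β hβ hm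
  have hcard : (1 : ℝ) ≤ (Fintype.card (Site d n) : ℝ) := by
    exact_mod_cast Fintype.card_pos
  have he : 0 < Real.exp (4 * d * β) := Real.exp_pos _
  set q : ℝ := (1 / (Fintype.card (Site d n) : ℝ)) * (1 / (1 + Real.exp (4 * d * β))) with hq
  have hq0 : 0 ≤ q := by positivity
  have hq1 : q ≤ 1 := by
    have h5 : 1 / (Fintype.card (Site d n) : ℝ) ≤ 1 := by
      rw [div_le_one (by linarith)]
      exact hcard
    have h6 : 1 / (1 + Real.exp (4 * d * β)) ≤ 1 := by
      rw [div_le_one (by linarith)]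
      linarith
    exact mul_le_one₀ h5 (by positivity) h6
  have h5 : gs β s (plus : Conf d n) =
      ∑ v : Site d n, (Pf β)^[s] (fun σ : Conf d n => sg (σ v)) plus := by
    unfold gs
    have h6 := UA_iter β (fun v (σ : Conf d n) => sg (σ v)) s
    have h7 : (Mg : Conf d n → ℝ) = fun σ => ∑ v, sg (σ v) := rfl
    rw [h7, h6]
  rw [h5]
  apply Finset.sum_le_sum
  intro v _
  set D := Box L v with hD
  have hv : v ∈ D := by
    rw [hD]
    unfold Box
    rw [Finset.mem_filter]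
    refine ⟨Finset.mem_univ _, fun k => ?_⟩
    rw [sub_self]
    simp
  have hmono : Monotone (fun σ : Conf d n => sg (σ v)) := fun σ η h => UA_sg_mono (h v)
  have h6 := h1 d n hn β hβ D _ hmono s plus
  have h7 := h4 d n β hβ D (fun σ : Conf d n => sg (σ v)) (fun σ => UA_sg_abs _)
    (fun σ => by simp [ext, hv]) s plus
  have h8 := (abs_le.1 h7).2
  have h9 := UA_real q hq0 hq1 D.card m s (Finset.card_pos.2 ⟨v, hv⟩) (hm v)
  linarith

end CU
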